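import Pool.Agent.DB.Top.Basic
import Pool.Agent.DB.G.Pl

/-!
# Project DB (MP_db294d_gt), module DB-J-Cycle: a cycle of the graph gives a simple closed curve,
and a graph with connected realisation is connected

PROOF PLAN. `real_conn_graph`: fix a vertex `a` (the space is non-empty, so there is one), let
`h p = ∑ v, if G.Reachable a v then p v else 0`: continuous on `real G`, with values in `{0, 1}`
(`real_cases`: a vertex gives `0` or `1`; on an edge both ends are reachable or both are not, the
coordinates sum up to `1`). On a connected space it is constant (`IsPreconnected.image`, the image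
in `{0,1} ⊂ ℝ` is connected; or the clopen set `h > 1/2`), so `= h (ev a) = 1`; hence every vertex is
reachable.
`circle_of_cycle`: let `c : G.Walk a a` be a cycle of length `k ≥ 3` (`IsCycle.three_le_length`),
`w j = c.getVert j`: `w 0 = w k = a`, `w` injective on `{0, ..., k-1}`
(`IsCycle.getVert_injOn'` or via `support.tail.Nodup`), consecutive ones adjacent
(`Walk.adj_getVert_succ`). `γ s = pl w k s`, `0 ≤ s ≤ k`, is continuous, in `real G` (`pl_mem`, `pl_eq`,
`edge_mem`), `γ 0 = γ k`, injective on `[0, k)`: write `s = j + θ`, `s' = j' + θ'` with `θ, θ' ∈ [0,1)`;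
if `θ = 0` the point is the vertex `w j`, it is equal to the other one only if `θ' = 0` and
`w j = w j'`, `j = j'`; if `θ, θ' > 0` the supports `{w j, w (j+1)}` and `{w j', w (j'+1)}` agree: `j = j'`
and then `θ = θ'`, or `w j = w (j'+1)` and `w (j+1) = w j'`: modulo `k` this gives `j ≡ j' + 1`,
`j + 1 ≡ j'`, so `2 ≡ 0 (mod k)`, impossible for `k ≥ 3`.
From `γ` to the circle: `AddCircle (k : ℝ)` or `AddCircle (1:ℝ)` with `γ (k s)`:
`AddCircle.liftIco` / `AddCircle.liftIco_continuous` (or `liftIcc`), and
`AddCircle.homeomorphCircle'` / `AddCircle.homeomorphCircle` to pass to `Circle`.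
-/

namespace Pool.Agent.DB

open Set

theorem real_conn_graph {V : Type} [Fintype V] [DecidableEq V] (G : SimpleGraph V)
    (h : ConnectedSpace (real G)) : G.Connected := by
  classical
  obtain ⟨⟨p₀, hp₀⟩⟩ := h.toNonempty
  obtain ⟨a, -, -, -⟩ := hp₀
  have : Nonempty V := ⟨a⟩
  let g : (V → ℝ) → ℝ := fun p => ∑ v, if G.Reachable a v then p v else 0
  have hg : Continuous g := by
    refine continuous_finsetSum _ (fun v _ => ?_)
    split_ifs
    · exact continuous_apply v
    · exact continuous_const
  have hcomb : ∀ (s : ℝ) (b c : V), g ((1 - s) • ev b + s • ev c) =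
      (1 - s) * (if G.Reachable a b then 1 else 0) + s * (if G.Reachable a c then 1 else 0) := by
    intro s b c
    have key : ∀ d : V, (∑ v, if G.Reachable a v then (ev d : V → ℝ) v else 0) =
        if G.Reachable a d then 1 else 0 := by
      intro d
      rw [Finset.sum_eq_single d]
      · rw [ev_apply, if_pos rfl]
      · intro v _ hv
        rw [ev_apply, if_neg hv, ite_self]
      · intro hd
        exact absurd (Finset.mem_univ d) hd
    rw [← key b, ← key c, Finset.mul_sum, Finset.mul_sum, ← Finset.sum_add_distrib]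
    refine Finset.sum_congr rfl (fun v _ => ?_)
    split_ifs
    · rfl
    · ring
  have h01 : ∀ p ∈ real G, g p = 0 ∨ g p = 1 := by
    rintro p ⟨b, c, hbc, s, -, -, rfl⟩
    rw [hcomb]
    have hiff : G.Reachable a b ↔ G.Reachable a c := by
      rcases hbc with rfl | hbc
      · exact Iff.rfl
      · exact ⟨fun h => h.trans hbc.reachable, fun h => h.trans hbc.symm.reachable⟩
    by_cases hb : G.Reachable a b
    · right
      rw [if_pos hb, if_pos (hiff.1 hb)]
      ring
    · left
      rw [if_neg hb, if_neg (fun h => hb (hiff.2 h))]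
      ring
  have hev : ∀ b : V, g (ev b) = if G.Reachable a b then 1 else 0 := by
    intro b
    have := hcomb 0 b b
    rw [sub_zero, one_smul, zero_smul, add_zero] at this
    rw [this]
    ring
  have hcl : IsClopen {p : real G | 1 / 2 < g p.1} := by
    refine ⟨?_, isOpen_lt continuous_const (hg.comp continuous_subtype_val)⟩
    have : {p : real G | 1 / 2 < g p.1} = {p : real G | 1 / 2 ≤ g p.1} := by
      ext p
      rw [mem_ofPred_eq, mem_ofPred_eq]
      rcases h01 p.1 p.2 with h | h <;> rw [h] <;> norm_num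
    rw [this]
    exact isClosed_le continuous_const (hg.comp continuous_subtype_val)
  have huniv : {p : real G | 1 / 2 < g p.1} = univ := by
    refine hcl.eq_univ ⟨⟨ev a, ev_mem a⟩, ?_⟩
    rw [mem_ofPred_eq, hev, if_pos (SimpleGraph.Reachable.refl a)]
    norm_num
  have hreach : ∀ b, G.Reachable a b := by
    intro b
    have hb : (⟨ev b, ev_mem b⟩ : real G) ∈ {p : real G | 1 / 2 < g p.1} := by
      rw [huniv]
      exact mem_univ _
    rw [mem_ofPred_eq, hev] at hb
    by_contra hcon
    rw [if_neg hcon] at hb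
    norm_num at hb
  exact ⟨fun b c => (hreach b).symm.trans (hreach c)⟩

theorem circle_of_cycle {V : Type} [Fintype V] [DecidableEq V] (G : SimpleGraph V) {a : V}
    (c : G.Walk a a) (hc : c.IsCycle) :
    ∃ f : Circle → real G, Continuous f ∧ Function.Injective f := by
  set k := c.length with hk
  have hk3 : 3 ≤ k := hc.three_le_length
  have hk0 : (0 : ℝ) < k := by
    have : 0 < k := by omega
    exact_mod_cast this
  set w : ℕ → V := c.getVert with hw
  have hw0 : w 0 = a := c.getVert_zero
  have hwk : w k = a := c.getVert_length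
  have hadj : ∀ n, n < k → G.Adj (w n) (w (n + 1)) := fun n hn => c.adj_getVert_succ hn
  have hinj : ∀ i j, i ≤ k → j ≤ k → w i = w j → i = j ∨ (i = 0 ∧ j = k) ∨ (i = k ∧ j = 0) := by
    intro i j hi hj hij
    rcases Nat.lt_or_ge i k with h1 | h1
    · rcases Nat.lt_or_ge j k with h2 | h2
      · left
        exact hc.getVert_injOn' (show i ≤ k - 1 by omega) (show j ≤ k - 1 by omega) hij
      · have hjk : j = k := by omega
        right
        left
        refine ⟨?_, hjk⟩
        refine hc.getVert_injOn' (show i ≤ k - 1 by omega) (show 0 ≤ k - 1 by omega) ?_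
        change w i = w 0
        rw [hij, hjk, hwk, hw0]
    · have hik : i = k := by omega
      rcases Nat.lt_or_ge j k with h2 | h2
      · right
        right
        refine ⟨hik, ?_⟩
        refine hc.getVert_injOn' (show j ≤ k - 1 by omega) (show 0 ≤ k - 1 by omega) ?_
        change w j = w 0
        rw [← hij, hik, hwk, hw0]
      · left
        omega
  have hplc : Continuous (fun h : ℝ => pl w k h) := by
    unfold pl
    fun_prop
  have hmem : ∀ s : ℝ, 0 ≤ s → s ≤ k → pl w k s ∈ real G := by
    intro s h0 h1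
    obtain ⟨n, t, hn, ht0, ht1, rfl⟩ := pl_mem w k (by omega) s h0 h1
    rw [pl_eq w k n hn t ht0 ht1]
    exact edge_mem (hadj n hn) ht0 ht1
  let γ : ℝ → real G := fun s => ⟨pl w k (projIcc 0 (k : ℝ) hk0.le s),
    hmem _ (projIcc 0 (k : ℝ) hk0.le s).2.1 (projIcc 0 (k : ℝ) hk0.le s).2.2⟩
  have hγc : Continuous γ :=
    (hplc.comp (continuous_subtype_val.comp continuous_projIcc)).subtype_mk _
  have hγv : ∀ s : ℝ, s ∈ Icc 0 (k : ℝ) → (γ s).1 = pl w k s := by
    intro s hs
    change pl w k (projIcc 0 (k : ℝ) hk0.le s) = _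
    rw [projIcc_of_mem hk0.le hs]
  have hγ0 : γ 0 = γ k := by
    apply Subtype.ext
    rw [hγv 0 ⟨le_rfl, hk0.le⟩, hγv k ⟨hk0.le, le_rfl⟩, pl_zero, hw0]
    have := pl_eq w k (k - 1) (by omega) 1 zero_le_one le_rfl
    have hcast : ((k - 1 : ℕ) : ℝ) + 1 = k := by
      rw [Nat.cast_sub (by omega)]
      push_cast
      ring
    rw [hcast, Nat.sub_add_cancel (by omega), hwk] at this
    rw [this, sub_self, zero_smul, one_smul, zero_add]
  have hval : ∀ s : ℝ, 0 ≤ s → s < k → ∃ (n : ℕ) (t : ℝ), n < k ∧ 0 ≤ t ∧ t < 1 ∧ s = n + t ∧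
      pl w k s = (1 - t) • ev (w n) + t • ev (w (n + 1)) := by
    intro s h0 h1
    have hfl : ⌊s⌋₊ < k := (Nat.floor_lt h0).2 h1
    refine ⟨⌊s⌋₊, s - ⌊s⌋₊, hfl, by linarith [Nat.floor_le h0],
      by linarith [Nat.lt_floor_add_one s], by ring, ?_⟩
    have := pl_eq w k ⌊s⌋₊ hfl (s - ⌊s⌋₊) (by linarith [Nat.floor_le h0])
      (by linarith [Nat.lt_floor_add_one s])
    rw [← this]
    congr 1
    ring
  have hγi : ∀ s s' : ℝ, s ∈ Ico 0 (k : ℝ) → s' ∈ Ico 0 (k : ℝ) → γ s = γ s' → s = s' := by
    intro s s' hs hs' heq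
    have h1 := congrArg Subtype.val heq
    rw [hγv s ⟨hs.1, hs.2.le⟩, hγv s' ⟨hs'.1, hs'.2.le⟩] at h1
    obtain ⟨n, t, hn, ht0, ht1, rfl, e1⟩ := hval s hs.1 hs.2
    obtain ⟨n', t', hn', ht0', ht1', rfl, e2⟩ := hval s' hs'.1 hs'.2
    rw [e1, e2] at h1
    have ev1 := congrFun h1 (w n)
    have ev2 := congrFun h1 (w n')
    simp only [Pi.add_apply, Pi.smul_apply, smul_eq_mul, ev_apply] at ev1 ev2
    rw [if_pos trivial, if_neg (hadj n hn).ne] at ev1
    rw [if_pos trivial, if_neg (hadj n' hn').ne] at ev2
    by_cases h2 : w n = w n'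
    · rw [if_pos h2] at ev1
      have hnn : n = n' := by
        rcases hinj n n' hn.le hn'.le h2 with h | h | h <;> omega
      subst hnn
      rw [if_neg (hadj n hn).ne] at ev1
      have : t = t' := by linarith
      rw [this]
    · exfalso
      rw [if_neg h2] at ev1
      rw [if_neg (fun h => h2 h.symm)] at ev2
      by_cases h3 : w n = w (n' + 1)
      · by_cases h4 : w n' = w (n + 1)
        · have a1 := hinj n (n' + 1) hn.le (by omega) h3
          have a2 := hinj n' (n + 1) hn'.le (by omega) h4
          omega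
        · rw [if_neg h4] at ev2
          linarith
      · rw [if_neg h3] at ev1
        linarith
  have : Fact ((0 : ℝ) < k) := ⟨hk0⟩
  have hlc : Continuous (AddCircle.liftIco (k : ℝ) 0 γ) :=
    AddCircle.liftIco_zero_continuous hγ0 hγc.continuousOn
  refine ⟨fun z => AddCircle.liftIco (k : ℝ) 0 γ ((AddCircle.homeomorphCircle hk0.ne').symm z),
    hlc.comp (AddCircle.homeomorphCircle hk0.ne').symm.continuous, ?_⟩
  have hli : Function.Injective (AddCircle.liftIco (k : ℝ) 0 γ) := by
    intro x y hxy
    have hx : x = ↑(AddCircle.equivIco (k : ℝ) 0 x) := AddCircle.coe_equivIco.symm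
    have hy : y = ↑(AddCircle.equivIco (k : ℝ) 0 y) := AddCircle.coe_equivIco.symm
    have hx2 := (AddCircle.equivIco (k : ℝ) 0 x).2
    have hy2 := (AddCircle.equivIco (k : ℝ) 0 y).2
    rw [hx, hy, AddCircle.liftIco_coe_apply hx2, AddCircle.liftIco_coe_apply hy2] at hxy
    rw [hx, hy, hγi _ _ ⟨hx2.1, by linarith [hx2.2]⟩ ⟨hy2.1, by linarith [hy2.2]⟩ hxy]
  exact hli.comp (AddCircle.homeomorphCircle hk0.ne').symm.injective

end Pool.Agent.DB
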