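import Pool.Agent.DB.Defs

/-!
# Project DB (MP_db294d_gt), part J: the literal definition of a tree

`TopTree T`: `T` is a non-degenerate continuum (Hausdorff; it is then compact and metrizable) which is
a finite union of arcs, any two of them meeting in a finite set, and which contains no simple closed
curve. The theorem of part J (Final.lean): `TopTree T → TreeSpace T`.
-/

namespace Pool.Agent.DB

open Set

universe u

/-- a decomposition of `T` into finitely many parametrised arcs which meet only in end points -/
structure Pieces (T : Type u) [TopologicalSpace T] where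
  I : Type
  fI : Fintype I
  dI : DecidableEq I
  g : I → ℝ → T
  cont : ∀ k, Continuous (g k)
  inj : ∀ k, InjOn (g k) (Icc 0 1)
  cover : ∀ x, ∃ k, ∃ u ∈ Icc (0 : ℝ) 1, g k u = x
  meet : ∀ k k' u u', k ≠ k' → u ∈ Icc (0 : ℝ) 1 → u' ∈ Icc (0 : ℝ) 1 → g k u = g k' u' →
    (u = 0 ∨ u = 1) ∧ (u' = 0 ∨ u' = 1)

attribute [instance] Pieces.fI Pieces.dI

end Pool.Agent.DB
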