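import Pool.Agent.DB.J.Def
import Pool.Agent.DB.Top.Basic
import Pool.Agent.DB.Top.Cpt
import Pool.Agent.DB.G.Pl

/-!
# Project DB (MP_db294d_gt), module DB-J-Graph: a space with pieces is the realisation of a graph

Vertices: the end points of the pieces, and one vertex (the midpoint) for every piece.

PROOF PLAN. `V = {p : T // ∃ k, p = g k 0 ∨ p = g k 1} ⊕ I` is finite; to get a type in `Type` (not
`Type u`) use instead a `Fin m` with an injection `e : Fin m → T` whose range is the set `P` of the
end points (finite: image of `I × Bool`): `V = Fin m ⊕ I`, or take `V = Fin m'` at the end; the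
statement only asks for some `V : Type`. Adjacency: `inl p ~ inr k` iff `e p = g k 0 ∨ e p = g k 1`.
`w k : ℕ → V`, `w k 0 = inl (g k 0)`, `w k 1 = inr k`, `w k 2 = inl (g k 1)` (and for larger numbers
as for `2`). `β (k, u) = pl (w k) 2 (2 u)`, `α (k, u) = g k u` on the compact space
`I × Icc (0:ℝ) 1` (discrete topology on `I`; or `Σ k : I, Icc 0 1`). Both are continuous (`pl` is a
finite sum of continuous functions of the height), onto (`T`: `cover`; `real G`: by `real_cases`
every point is on an edge `inl p, inr k`, i.e. `β (k, t/2)` or `β (k, 1 - t/2)`; a vertex `inl p` is an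
end point of a piece by definition of `P`, a vertex `inr k` is `β (k, 1/2)`).
Same kernel: `β (k,u) = β (k',u')` iff `α (k,u) = α (k',u')`. By `pl_eq` (G/Pl.lean): the
coordinate at `inr k` of `β (k,u)` is `1 - |2u - 1|`. If `u ∈ (0,1)` it is positive, so equality
forces `k' = k` (for `k' ≠ k` the coordinate at `inr k` of `β(k',u')` is `0`), equal coordinates at
`inr k` and at `inl (g k 1)` (`max 0 (2u - 1)`) give `u = u'` (`g k 0 ≠ g k 1` by injectivity). If both
`u, u'` are in `{0,1}` the values are `ev (inl ·)` of the end points: equal iff the end points are.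
On the other side use `inj` and `meet`.
Homeomorphism: `α`, `β` are quotient maps (continuous onto from a compact space to a Hausdorff space:
`Continuous.isClosedMap`, `IsClosedMap.isQuotientMap`); `IsQuotientMap.homeomorph` for both and the
equality of the kernels (`Quotient` of equal setoids), or construct the bijection by hand.
-/

namespace Pool.Agent.DB

open Set

universe u

section Aux

variable {T : Type u} [TopologicalSpace T] (D : Pieces T)

/-- the end points of the pieces -/
private noncomputable def enp (kb : D.I × Bool) : T := D.g kb.1 (if kb.2 then 1 else 0)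

/-- equality of end points -/
private noncomputable def eset : Setoid (D.I × Bool) := Setoid.ker (enp D)

/-- the vertices -/
private def VV : Type := Quotient (eset D) ⊕ D.I

private noncomputable instance instDecVV : DecidableEq (VV D) := Classical.decEq _

private instance instFinVV : Finite (VV D) := by
  unfold VV
  infer_instance

private noncomputable instance instFintypeVV : Fintype (VV D) := Fintype.ofFinite _

/-- end point vertices -/
private noncomputable def vl (k : D.I) (b : Bool) : VV D := Sum.inl (Quotient.mk (eset D) (k, b))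

/-- piece vertices -/
private def vr (k : D.I) : VV D := Sum.inr k

private theorem vl_eq {k k' : D.I} {b b' : Bool} :
    vl D k b = vl D k' b' ↔ enp D (k, b) = enp D (k', b') := by
  unfold vl
  constructor
  · intro h
    exact Quotient.exact (Sum.inl_injective h)
  · intro h
    exact congrArg Sum.inl (Quotient.sound h)

private theorem vr_eq {k k' : D.I} : vr D k = vr D k' ↔ k = k' := by
  unfold vr
  exact Sum.inr_injective.eq_iff

private theorem vl_ne_vr (k k' : D.I) (b : Bool) : vl D k b ≠ vr D k' := by
  unfold vl vr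
  exact Sum.inl_ne_inr

private theorem VV_cases (v : VV D) : (∃ k b, v = vl D k b) ∨ ∃ k, v = vr D k := by
  rcases v with q | k
  · left
    induction q using Quotient.inductionOn with
    | h kb => exact ⟨kb.1, kb.2, rfl⟩
  · right
    exact ⟨k, rfl⟩

/-- the graph -/
private def GG : SimpleGraph (VV D) :=
  SimpleGraph.fromRel (fun a b => ∃ k c, a = vl D k c ∧ b = vr D k)

private theorem GG_adj (k : D.I) (c : Bool) : (GG D).Adj (vl D k c) (vr D k) := by
  unfold GG
  rw [SimpleGraph.fromRel_adj]
  exact ⟨vl_ne_vr D k k c, Or.inl ⟨k, c, rfl, rfl⟩⟩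

/-- the parametrisation of the realisation -/
private noncomputable def bt (k : D.I) (u : ℝ) : VV D → ℝ :=
  (max 0 (1 - 2 * u)) • ev (vl D k false) + (1 - |2 * u - 1|) • ev (vr D k) +
    (max 0 (2 * u - 1)) • ev (vl D k true)

private theorem bt_cont (k : D.I) : Continuous (bt D k) := by
  unfold bt
  fun_prop

private theorem bt_left (k : D.I) {t : ℝ} (h0 : 0 ≤ t) (h1 : t ≤ 1) :
    bt D k (t / 2) = (1 - t) • ev (vl D k false) + t • ev (vr D k) := by
  unfold bt
  have e1 : max 0 (1 - 2 * (t / 2)) = 1 - t := by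
    rw [max_eq_right (by linarith)]; ring
  have e2 : 1 - |2 * (t / 2) - 1| = t := by
    rw [abs_of_nonpos (by linarith)]; ring
  have e3 : max 0 (2 * (t / 2) - 1) = 0 := max_eq_left (by linarith)
  rw [e1, e2, e3, zero_smul, add_zero]

private theorem bt_right (k : D.I) {t : ℝ} (h0 : 0 ≤ t) (h1 : t ≤ 1) :
    bt D k (1 - t / 2) = (1 - t) • ev (vl D k true) + t • ev (vr D k) := by
  unfold bt
  have e1 : max 0 (1 - 2 * (1 - t / 2)) = 0 := max_eq_left (by linarith)
  have e2 : 1 - |2 * (1 - t / 2) - 1| = t := by
    rw [abs_of_nonneg (by linarith)]; ring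
  have e3 : max 0 (2 * (1 - t / 2) - 1) = 1 - t := by
    rw [max_eq_right (by linarith)]; ring
  rw [e1, e2, e3, zero_smul, zero_add, add_comm]

private theorem bt_zero (k : D.I) : bt D k 0 = ev (vl D k false) := by
  have h := bt_left D k (le_refl (0 : ℝ)) zero_le_one
  rwa [zero_div, sub_zero, one_smul, zero_smul, add_zero] at h

private theorem bt_one (k : D.I) : bt D k 1 = ev (vl D k true) := by
  have h := bt_right D k (le_refl (0 : ℝ)) zero_le_one
  rwa [zero_div, sub_zero, one_smul, zero_smul, add_zero] at h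

private theorem bt_half (k : D.I) : bt D k (1 / 2) = ev (vr D k) := by
  have h := bt_left D k (zero_le_one : (0 : ℝ) ≤ 1) le_rfl
  rwa [sub_self, one_smul, zero_smul, zero_add] at h

private theorem bt_mem (k : D.I) {u : ℝ} (hu : u ∈ Icc (0 : ℝ) 1) : bt D k u ∈ real (GG D) := by
  rcases le_total u (1 / 2) with h | h
  · have h1 : u = (2 * u) / 2 := by ring
    rw [h1, bt_left D k (by linarith [hu.1]) (by linarith)]
    exact edge_mem (GG_adj D k false) (by linarith [hu.1]) (by linarith)
  · have h1 : u = 1 - (2 - 2 * u) / 2 := by ring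
    rw [h1, bt_right D k (by linarith [hu.2]) (by linarith)]
    exact edge_mem (GG_adj D k true) (by linarith [hu.2]) (by linarith)

private theorem bt_surj_aux {a b : VV D} (h : ∃ k c, a = vl D k c ∧ b = vr D k) {t : ℝ}
    (h0 : 0 ≤ t) (h1 : t ≤ 1) :
    ∃ k, ∃ u ∈ Icc (0 : ℝ) 1, bt D k u = (1 - t) • ev a + t • ev b := by
  obtain ⟨k, c, rfl, rfl⟩ := h
  rcases c with _ | _
  · exact ⟨k, t / 2, ⟨by linarith, by linarith⟩, bt_left D k h0 h1⟩
  · exact ⟨k, 1 - t / 2, ⟨by linarith, by linarith⟩, bt_right D k h0 h1⟩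

private theorem bt_surj {p : VV D → ℝ} (hp : p ∈ real (GG D)) :
    ∃ k, ∃ u ∈ Icc (0 : ℝ) 1, bt D k u = p := by
  rcases real_cases hp with ⟨v, rfl⟩ | ⟨a, b, hab, t, h0, h1, rfl⟩
  · rcases VV_cases D v with ⟨k, c, rfl⟩ | ⟨k, rfl⟩
    · rcases c with _ | _
      · exact ⟨k, 0, ⟨le_rfl, zero_le_one⟩, bt_zero D k⟩
      · exact ⟨k, 1, ⟨zero_le_one, le_rfl⟩, bt_one D k⟩
    · exact ⟨k, 1 / 2, ⟨by norm_num, by norm_num⟩, bt_half D k⟩
  · unfold GG at hab
    rw [SimpleGraph.fromRel_adj] at hab
    rcases hab.2 with h | h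
    · exact bt_surj_aux D h h0.le h1.le
    · rw [edge_symm]
      exact bt_surj_aux D h (by linarith) (by linarith)

private theorem bt_vr (k j : D.I) (u : ℝ) :
    bt D k u (vr D j) = if j = k then 1 - |2 * u - 1| else 0 := by
  unfold bt
  simp only [Pi.add_apply, Pi.smul_apply, smul_eq_mul, ev_apply]
  rw [if_neg (vl_ne_vr D k j false).symm, if_neg (vl_ne_vr D k j true).symm]
  simp only [vr_eq]
  split_ifs <;> ring

private theorem bt_vl (k : D.I) (u : ℝ) : bt D k u (vl D k true) = max 0 (2 * u - 1) := by
  unfold bt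
  simp only [Pi.add_apply, Pi.smul_apply, smul_eq_mul, ev_apply, if_true]
  rw [if_neg (vl_ne_vr D k k true)]
  have h1 : vl D k true ≠ vl D k false := by
    intro h
    rw [vl_eq] at h
    unfold enp at h
    simp only [if_true] at h
    have h2 := D.inj k (by exact ⟨zero_le_one, le_rfl⟩)
      (by exact ⟨le_rfl, zero_le_one⟩) h
    exact one_ne_zero h2
  rw [if_neg h1]
  ring

private theorem bt_rec (k : D.I) {u : ℝ} (hu : u ∈ Icc (0 : ℝ) 1) :
    bt D k u (vr D k) / 2 + bt D k u (vl D k true) = u := by
  rw [bt_vr, bt_vl, if_pos rfl]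
  rcases le_total u (1 / 2) with h | h
  · rw [abs_of_nonpos (by linarith), max_eq_left (by linarith)]
    ring
  · rw [abs_of_nonneg (by linarith), max_eq_right (by linarith)]
    ring

private theorem end_case (k : D.I) {u : ℝ} (hu : u = 0 ∨ u = 1) :
    ∃ c, bt D k u = ev (vl D k c) ∧ D.g k u = enp D (k, c) := by
  rcases hu with rfl | rfl
  · exact ⟨false, bt_zero D k, by simp [enp]⟩
  · exact ⟨true, bt_one D k, by simp [enp]⟩

private theorem end_of_zero {u : ℝ} (h : 1 - |2 * u - 1| = 0) : u = 0 ∨ u = 1 := by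
  have h1 : |2 * u - 1| = 1 := by linarith
  rcases (abs_eq zero_le_one).mp h1 with h2 | h2
  · right; linarith
  · left; linarith

private theorem ker_eq (k k' : D.I) {u u' : ℝ} (hu : u ∈ Icc (0 : ℝ) 1)
    (hu' : u' ∈ Icc (0 : ℝ) 1) : bt D k u = bt D k' u' ↔ D.g k u = D.g k' u' := by
  constructor
  · intro h
    by_cases h0 : 1 - |2 * u - 1| = 0
    · have h1 : 1 - |2 * u' - 1| = 0 := by
        have h2 := congrFun h (vr D k')
        rw [bt_vr, bt_vr, if_pos rfl] at h2
        rw [← h2]
        split_ifs
        · exact h0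
        · rfl
      obtain ⟨c, hc1, hc2⟩ := end_case D k (end_of_zero h0)
      obtain ⟨c', hc1', hc2'⟩ := end_case D k' (end_of_zero h1)
      rw [hc1, hc1'] at h
      have h3 := ev_inj h
      rw [vl_eq] at h3
      rw [hc2, hc2', h3]
    · have h1 : k = k' := by
        by_contra hne
        have h2 := congrFun h (vr D k)
        rw [bt_vr, bt_vr, if_pos rfl, if_neg hne] at h2
        exact h0 h2
      subst h1
      have h2 := bt_rec D k hu
      rw [h, bt_rec D k hu'] at h2
      rw [h2]
  · intro h
    by_cases hk : k = k'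
    · subst hk
      rw [D.inj k hu hu' h]
    · obtain ⟨h1, h2⟩ := D.meet k k' u u' hk hu hu' h
      obtain ⟨c, hc1, hc2⟩ := end_case D k h1
      obtain ⟨c', hc1', hc2'⟩ := end_case D k' h2
      rw [hc1, hc1']
      rw [hc2, hc2'] at h
      rw [(vl_eq D).mpr h]

end Aux

theorem pieces_graph {T : Type u} [TopologicalSpace T] [T2Space T] [Nonempty T] (D : Pieces T) :
    ∃ (V : Type) (_ : Fintype V) (_ : DecidableEq V) (G : SimpleGraph V),
      Nontrivial V ∧ Nonempty (T ≃ₜ real G) := by
  refine ⟨VV D, instFintypeVV D, instDecVV D, GG D, ?_, ?_⟩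
  · obtain ⟨x⟩ := ‹Nonempty T›
    obtain ⟨k, _, _, _⟩ := D.cover x
    exact ⟨vl D k false, vr D k, vl_ne_vr D k k false⟩
  letI : TopologicalSpace D.I := ⊥
  haveI : DiscreteTopology D.I := ⟨rfl⟩
  let α : D.I × Icc (0 : ℝ) 1 → T := fun q => D.g q.1 q.2.1
  let β : D.I × Icc (0 : ℝ) 1 → real (GG D) := fun q => ⟨bt D q.1 q.2.1, bt_mem D q.1 q.2.2⟩
  have hα : Continuous α := by
    rw [continuous_prod_of_discrete_left]
    intro k
    exact (D.cont k).comp continuous_subtype_val
  have hβ : Continuous β := by
    rw [continuous_prod_of_discrete_left]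
    intro k
    exact ((bt_cont D k).comp continuous_subtype_val).subtype_mk _
  have hαs : Function.Surjective α := by
    intro x
    obtain ⟨k, u, hu, h⟩ := D.cover x
    exact ⟨(k, ⟨u, hu⟩), h⟩
  have hβs : Function.Surjective β := by
    intro p
    obtain ⟨k, u, hu, h⟩ := bt_surj D p.2
    exact ⟨(k, ⟨u, hu⟩), Subtype.ext h⟩
  have hker : ∀ q q', β q = β q' ↔ α q = α q' := by
    intro q q'
    rw [← ker_eq D q.1 q'.1 q.2.2 q'.2.2]
    exact Subtype.ext_iff
  haveI : CompactSpace T := by
    rw [← isCompact_univ_iff, ← hαs.range_eq]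
    exact isCompact_range hα
  have hq : Topology.IsQuotientMap α := Topology.IsQuotientMap.of_surjective_continuous hαs hα
  choose s hs using hαs
  let F : T → real (GG D) := fun x => β (s x)
  have hFα : F ∘ α = β := by
    funext q
    change β (s (α q)) = β q
    rw [hker, hs]
  have hF : Continuous F := by
    rw [hq.continuous_iff, hFα]
    exact hβ
  have hb : Function.Bijective F := by
    constructor
    · intro x y h
      have h1 : α (s x) = α (s y) := (hker _ _).mp h
      rwa [hs, hs] at h1
    · intro p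
      obtain ⟨q, hq'⟩ := hβs p
      exact ⟨α q, by rw [← hq']; exact congrFun hFα q⟩
  exact ⟨Continuous.homeoOfEquivCompactToT2 (f := Equiv.ofBijective F hb) hF⟩

end Pool.Agent.DB
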