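import Pool.Agent.DB.J.Pieces
import Pool.Agent.DB.J.Graph
import Pool.Agent.DB.J.Cycle

/-!
# Project DB (MP_db294d_gt), part J: trees in the literal sense are realisations of tree graphs
-/

namespace Pool.Agent.DB

open Set

universe u

theorem TopTree.treeSpace {T : Type u} [TopologicalSpace T] (h : TopTree T) : TreeSpace T := by
  obtain ⟨h1, h2, h3, ⟨n, A, hA, hfin, hcov⟩, hcirc⟩ := h
  obtain ⟨D⟩ := exists_pieces n A hA hfin hcov
  obtain ⟨V, fV, dV, G, hV, ⟨e⟩⟩ := pieces_graph D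
  refine ⟨V, fV, dV, G, ⟨real_conn_graph G ?_, ?_⟩, hV, ⟨e⟩⟩
  · exact e.surjective.connectedSpace e.continuous
  · intro a c hc
    obtain ⟨f, hf, hfi⟩ := circle_of_cycle G c hc
    exact hcirc ⟨fun z => e.symm (f z), by fun_prop, e.symm.injective.comp hfi⟩

end Pool.Agent.DB
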