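import Pool.Agent.DB.J.Def

/-!
# Project DB (MP_db294d_gt), module DB-J-Pieces: cutting the arcs at the common points

PROOF PLAN. Let `a i : A i ≃ₜ Icc 0 1`, `b i : ℝ → T`, `b i u = (a i).symm (projIcc 0 1 _ u)`:
continuous, injective on `Icc 0 1`, image `A i`. `P = (⋃ i ≠ j, A i ∩ A j) ∪ {b i 0, b i 1}`: a finite
set. `F i = {t ∈ Icc 0 1 | b i t ∈ P}`: finite (injectivity), contains `0` and `1`.
`I = {(i, s, t) : Fin n × ℝ × ℝ | s ∈ F i, t ∈ F i, s < t, ∀ r ∈ F i, ¬ (s < r ∧ r < t)}`: a finite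
set (subset of a finite one), as a type: `Fintype` by `Set.Finite.fintype`; to have `I : Type` with
`T : Type u` note that `Fin n × ℝ × ℝ` is in `Type`.
`g (i,s,t) u = b i (s + u' (t - s))` (with `u` itself, no truncation needed: `b i` is continuous
on `ℝ`). Injective on `Icc 0 1`.
`cover`: `x = b i r`, `r ∈ Icc 0 1`. If `r = 1`: `t = 1`, `s = ` the maximum of `{q ∈ F i | q < 1}`
(finite, contains `0`). If `r < 1`: `s` = maximum of `{q ∈ F i | q ≤ r}`, `t` = minimum of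
`{q ∈ F i | r < q}`. `u = (r - s)/(t - s)`.
`meet`: `(i,s,t) ≠ (i',s',t')`, `r = s + u (t-s)`, `r' = s' + u' (t'-s')`, `b i r = b i' r'`. If
`i ≠ i'` this point is in `P`, so `r ∈ F i`, `s ≤ r ≤ t`, hence `r = s` or `r = t`, `u ∈ {0, 1}`; same
for `r'`. If `i = i'` then `r = r'` (injectivity). If `r ∈ F i` the same conclusion. If `r ∉ F i`,
then `s < r < t`, `s' < r < t'`; `s ≤ s'` and `s' ≤ s` (otherwise an element of `F i` lies strictly
inside the other interval), `t = t'`: contradiction.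
-/

namespace Pool.Agent.DB

open Set

universe u

/-- a parametrisation of an arc by the real line -/
private theorem pcs_param {T : Type u} [TopologicalSpace T] {A : Set T}
    (hA : Nonempty (A ≃ₜ Icc (0 : ℝ) 1)) : ∃ b : ℝ → T, Continuous b ∧ InjOn b (Icc 0 1) ∧
      (∀ r, b r ∈ A) ∧ ∀ x ∈ A, ∃ r ∈ Icc (0 : ℝ) 1, b r = x := by
  obtain ⟨a⟩ := hA
  refine ⟨fun r => (a.symm (projIcc 0 1 zero_le_one r) : T),
    continuous_subtype_val.comp (a.symm.continuous.comp continuous_projIcc), ?_, ?_, ?_⟩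
  · intro r hr s hs hrs
    have h1 : a.symm (projIcc 0 1 zero_le_one r) = a.symm (projIcc 0 1 zero_le_one s) :=
      Subtype.ext hrs
    have h2 := a.symm.injective h1
    rw [projIcc_of_mem zero_le_one hr, projIcc_of_mem zero_le_one hs] at h2
    exact congrArg Subtype.val h2
  · intro r
    exact (a.symm (projIcc 0 1 zero_le_one r)).2
  · intro x hx
    refine ⟨a ⟨x, hx⟩, (a ⟨x, hx⟩).2, ?_⟩
    simp only [projIcc_val]
    rw [a.symm_apply_apply]

/-- consecutive elements of a finite subset of the unit interval around a point -/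
private theorem pcs_gap {F : Set ℝ} (hF : F.Finite) (h0 : (0 : ℝ) ∈ F) (h1 : (1 : ℝ) ∈ F)
    {r : ℝ} (hr : r ∈ Icc (0 : ℝ) 1) :
    ∃ s t, s ∈ F ∧ t ∈ F ∧ s < t ∧ (∀ q ∈ F, ¬ (s < q ∧ q < t)) ∧ s ≤ r ∧ r ≤ t := by
  obtain ⟨s, hs, hsmax⟩ := Set.exists_max_image {q | q ∈ F ∧ q ≤ r ∧ q < 1} id
    (hF.subset fun q hq => hq.1) ⟨0, h0, hr.1, zero_lt_one⟩
  obtain ⟨t, ht, htmin⟩ := Set.exists_min_image {q | q ∈ F ∧ s < q} id
    (hF.subset fun q hq => hq.1) ⟨1, h1, hs.2.2⟩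
  simp only [id] at hsmax htmin
  refine ⟨s, t, hs.1, ht.1, ht.2, fun q hq hq' => ?_, hs.2.1, ?_⟩
  · exact absurd (htmin q ⟨hq, hq'.1⟩) (not_le.2 hq'.2)
  · by_contra hlt
    push Not at hlt
    exact absurd (hsmax t ⟨ht.1, hlt.le, lt_of_lt_of_le hlt hr.2⟩) (not_le.2 ht.2)

theorem exists_pieces {T : Type u} [TopologicalSpace T] [T2Space T] (n : ℕ) (A : Fin n → Set T)
    (hA : ∀ i, Nonempty (A i ≃ₜ Icc (0 : ℝ) 1)) (hfin : ∀ i j, i ≠ j → (A i ∩ A j).Finite)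
    (hcov : ⋃ i, A i = univ) : Nonempty (Pieces T) := by
  classical
  choose b hbc hbi hbA hbs using fun i => pcs_param (hA i)
  set F : Fin n → Set ℝ := fun i => {r | r ∈ Icc (0 : ℝ) 1 ∧ (r = 0 ∨ r = 1 ∨ ∃ j, i ≠ j ∧ b i r ∈ A j)}
    with hF
  have hFfin : ∀ i, (F i).Finite := by
    intro i
    have h1 : F i ⊆ {0} ∪ {1} ∪ ⋃ j, {r | r ∈ Icc (0 : ℝ) 1 ∧ i ≠ j ∧ b i r ∈ A j} := by
      rintro r ⟨hr, rfl | rfl | ⟨j, hj, hrj⟩⟩
      · exact Or.inl (Or.inl rfl)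
      · exact Or.inl (Or.inr rfl)
      · exact Or.inr (mem_iUnion.2 ⟨j, hr, hj, hrj⟩)
    refine Finite.subset (((finite_singleton 0).union (finite_singleton 1)).union
      (finite_iUnion fun j => ?_)) h1
    by_cases hij : i = j
    · refine finite_empty.subset ?_
      rintro r ⟨-, h, -⟩
      exact absurd hij h
    · refine Finite.of_finite_image (f := b i) ((hfin i j hij).subset ?_) ?_
      · rintro x ⟨r, ⟨-, -, h⟩, rfl⟩
        exact ⟨hbA i r, h⟩
      · intro r hr s hs hrs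
        exact hbi i hr.1 hs.1 hrs
  have hF0 : ∀ i, (0 : ℝ) ∈ F i := fun i => ⟨⟨le_rfl, zero_le_one⟩, Or.inl rfl⟩
  have hF1 : ∀ i, (1 : ℝ) ∈ F i := fun i => ⟨⟨zero_le_one, le_rfl⟩, Or.inr (Or.inl rfl)⟩
  set J : Set (Fin n × ℝ × ℝ) := {q | q.2.1 ∈ F q.1 ∧ q.2.2 ∈ F q.1 ∧ q.2.1 < q.2.2 ∧
    ∀ r ∈ F q.1, ¬ (q.2.1 < r ∧ r < q.2.2)} with hJ
  have hJfin : J.Finite := by
    have h1 : (⋃ i, F i).Finite := finite_iUnion hFfin
    refine ((finite_univ (α := Fin n)).prod (h1.prod h1)).subset ?_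
    rintro ⟨i, s, t⟩ ⟨h2, h3, -, -⟩
    exact ⟨mem_univ _, mem_iUnion.2 ⟨i, h2⟩, mem_iUnion.2 ⟨i, h3⟩⟩
  -- the point with parameter `u` of a piece
  have hpt : ∀ (k : J) {u : ℝ}, u ∈ Icc (0 : ℝ) 1 →
      k.1.2.1 ≤ k.1.2.1 + u * (k.1.2.2 - k.1.2.1) ∧
      k.1.2.1 + u * (k.1.2.2 - k.1.2.1) ≤ k.1.2.2 := by
    intro k u hu
    have h1 : k.1.2.1 < k.1.2.2 := k.2.2.2.1
    have h2 : 0 < k.1.2.2 - k.1.2.1 := sub_pos.2 h1
    have h3 := mul_nonneg hu.1 h2.le
    have h4 := mul_le_mul_of_nonneg_right hu.2 h2.le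
    constructor <;> linarith
  have hpt' : ∀ (k : J) {u : ℝ}, u ∈ Icc (0 : ℝ) 1 →
      k.1.2.1 + u * (k.1.2.2 - k.1.2.1) ∈ Icc (0 : ℝ) 1 := by
    intro k u hu
    have h1 := hpt k hu
    have h2 : k.1.2.1 ∈ Icc (0 : ℝ) 1 := k.2.1.1
    have h3 : k.1.2.2 ∈ Icc (0 : ℝ) 1 := k.2.2.1.1
    exact ⟨h2.1.trans h1.1, h1.2.trans h3.2⟩
  -- a point in `F` is an end point
  have hend : ∀ (k : J) {u : ℝ}, u ∈ Icc (0 : ℝ) 1 →
      k.1.2.1 + u * (k.1.2.2 - k.1.2.1) ∈ F k.1.1 → u = 0 ∨ u = 1 := by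
    intro k u hu hmem
    have h1 := hpt k hu
    have h2 : k.1.2.1 < k.1.2.2 := k.2.2.2.1
    have h3 := k.2.2.2.2 _ hmem
    have h4 : 0 < k.1.2.2 - k.1.2.1 := sub_pos.2 h2
    rcases h1.1.eq_or_lt with h5 | h5
    · left
      have h6 : u * (k.1.2.2 - k.1.2.1) = 0 := by linarith
      rcases mul_eq_zero.1 h6 with h7 | h7
      · exact h7
      · exact absurd h7 h4.ne'
    · right
      have h6 : k.1.2.1 + u * (k.1.2.2 - k.1.2.1) = k.1.2.2 := by
        refine le_antisymm h1.2 ?_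
        by_contra hc
        exact h3 ⟨h5, not_le.1 hc⟩
      have h7 : (u - 1) * (k.1.2.2 - k.1.2.1) = 0 := by linarith
      rcases mul_eq_zero.1 h7 with h8 | h8
      · linarith
      · exact absurd h8 h4.ne'
  refine ⟨{ I := J
            fI := hJfin.fintype
            dI := inferInstance
            g := fun k u => b k.1.1 (k.1.2.1 + u * (k.1.2.2 - k.1.2.1))
            cont := fun k => (hbc k.1.1).comp (by fun_prop)
            inj := ?_
            cover := ?_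
            meet := ?_ }⟩
  · intro k u hu v hv huv
    have h1 := hbi k.1.1 (hpt' k hu) (hpt' k hv) huv
    have h2 : k.1.2.1 < k.1.2.2 := k.2.2.2.1
    have h4 : 0 < k.1.2.2 - k.1.2.1 := sub_pos.2 h2
    have h5 : u * (k.1.2.2 - k.1.2.1) = v * (k.1.2.2 - k.1.2.1) := by linarith
    exact mul_right_cancel₀ h4.ne' h5
  · intro x
    have hx : x ∈ ⋃ i, A i := by
      rw [hcov]
      exact mem_univ x
    obtain ⟨i, hi⟩ := mem_iUnion.1 hx
    obtain ⟨r, hr, rfl⟩ := hbs i x hi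
    obtain ⟨s, t, hs, ht, hst, hno, hsr, hrt⟩ := pcs_gap (hFfin i) (hF0 i) (hF1 i) hr
    have h4 : 0 < t - s := sub_pos.2 hst
    refine ⟨⟨(i, s, t), hs, ht, hst, hno⟩, (r - s) / (t - s), ⟨by
      apply div_nonneg <;> linarith, ?_⟩, ?_⟩
    · rw [div_le_one h4]
      linarith
    · have h5 : s + (r - s) / (t - s) * (t - s) = r := by
        rw [div_mul_cancel₀ _ h4.ne']
        ring
      change b i (s + (r - s) / (t - s) * (t - s)) = b i r
      rw [h5]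
  · intro k k' u u' hkk hu hu' hg
    have e1 := hpt' k hu
    have e2 := hpt' k' hu'
    by_cases hii : k.1.1 = k'.1.1
    · have h1 : k.1.2.1 + u * (k.1.2.2 - k.1.2.1) = k'.1.2.1 + u' * (k'.1.2.2 - k'.1.2.1) := by
        apply hbi k.1.1 e1 e2
        rw [hg, hii]
      by_cases hm : k.1.2.1 + u * (k.1.2.2 - k.1.2.1) ∈ F k.1.1
      · refine ⟨hend k hu hm, hend k' hu' ?_⟩
        rw [← h1, ← hii]
        exact hm
      · exfalso
        apply hkk
        have f1 := hpt k hu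
        have f2 := hpt k' hu'
        rw [← h1] at f2
        set r : ℝ := k.1.2.1 + u * (k.1.2.2 - k.1.2.1) with hr
        have n1 : k.1.2.1 ≠ r := fun h => hm (by rw [← h]; exact k.2.1)
        have n2 : r ≠ k.1.2.2 := fun h => hm (by rw [h]; exact k.2.2.1)
        have n3 : k'.1.2.1 ≠ r := fun h => hm (by rw [← h, hii]; exact k'.2.1)
        have n4 : r ≠ k'.1.2.2 := fun h => hm (by rw [h, hii]; exact k'.2.2.1)
        have g1 := lt_of_le_of_ne f1.1 n1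
        have g2 := lt_of_le_of_ne f1.2 n2
        have g3 := lt_of_le_of_ne f2.1 n3
        have g4 := lt_of_le_of_ne f2.2 n4
        have hs : k.1.2.1 = k'.1.2.1 := by
          rcases lt_trichotomy k.1.2.1 k'.1.2.1 with h | h | h
          · exact absurd ⟨h, g3.trans g2⟩ (k.2.2.2.2 _ (by rw [hii]; exact k'.2.1))
          · exact h
          · exact absurd ⟨h, g1.trans g4⟩ (k'.2.2.2.2 _ (by rw [← hii]; exact k.2.1))
        have ht : k.1.2.2 = k'.1.2.2 := by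
          rcases lt_trichotomy k.1.2.2 k'.1.2.2 with h | h | h
          · exact absurd ⟨g3.trans g2, h⟩ (k'.2.2.2.2 _ (by rw [← hii]; exact k.2.2.1))
          · exact h
          · exact absurd ⟨g1.trans g4, h⟩ (k.2.2.2.2 _ (by rw [hii]; exact k'.2.2.1))
        exact Subtype.ext (Prod.ext hii (Prod.ext hs ht))
    · refine ⟨hend k hu ⟨e1, Or.inr (Or.inr ⟨k'.1.1, hii, ?_⟩)⟩,
        hend k' hu' ⟨e2, Or.inr (Or.inr ⟨k.1.1, fun h => hii h.symm, ?_⟩)⟩⟩
      · rw [hg]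
        exact hbA _ _
      · rw [← hg]
        exact hbA _ _

end Pool.Agent.DB
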